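import Mathlib
import Pool.Agent.H242R3.ES.StmtsN

/-!
Task ES-N2 of project H242-ES: the sign of the ridge coefficients along a segment.
-/

set_option autoImplicit false
set_option maxHeartbeats 1000000

open Finset Matrix
open scoped Classical

namespace Pool.Agent.H574R3.ESN2

open Pool.Agent.H242R3.ES

section base

variable {ι : Type} {q : ι → ι → ℝ} {r : Finset ι} {F : ι → ℝ}

/-- the vector `P⁻¹ 1` -/
noncomputable def uu (q : ι → ι → ℝ) (r : Finset ι) (F : ι → ℝ) : r → ℝ :=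
  (GMq q r F)⁻¹ *ᵥ (fun _ => 1)

lemma inv_mul_eq (hP : (GMq q r F).PosDef) (x : r → ℝ) :
    GMq q r F *ᵥ ((GMq q r F)⁻¹ *ᵥ x) = x := by
  rw [Matrix.mulVec_mulVec, Matrix.mul_nonsing_inv _ ((Matrix.isUnit_iff_isUnit_det _).1 hP.isUnit),
    Matrix.one_mulVec]

lemma inv_mul_eq' (hP : (GMq q r F).PosDef) (x : r → ℝ) :
    (GMq q r F)⁻¹ *ᵥ (GMq q r F *ᵥ x) = x := by
  rw [Matrix.mulVec_mulVec, Matrix.nonsing_inv_mul _ ((Matrix.isUnit_iff_isUnit_det _).1 hP.isUnit),
    Matrix.one_mulVec]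

lemma gq_symm (hq : ∀ i k, q i k = q k i) (F : ι → ℝ) (i k : ι) : gq q F i k = gq q F k i := by
  unfold gq
  rw [hq i k]
  ring

lemma row (q : ι → ι → ℝ) (r : Finset ι) (F : ι → ℝ) (x : r → ℝ) (i : r) :
    (GMq q r F *ᵥ x) i =
      (F i * (∑ k, x k) + (∑ k : r, F k * x k) - ∑ k : r, q i k * x k) / 2 := by
  have h1 : (GMq q r F *ᵥ x) i = ∑ k : r, gq q F i k * x k := rfl
  rw [h1]
  have h2 : ∀ k : r, gq q F i k * x k = (F i * x k + F k * x k - q i k * x k) / 2 := by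
    intro k
    unfold gq
    ring
  rw [Finset.sum_congr rfl fun k _ => h2 k, ← Finset.sum_div,
    Finset.sum_sub_distrib, Finset.sum_add_distrib, ← Finset.mul_sum]

lemma tau_pos (hr : r.Nonempty) (hP : (GMq q r F).PosDef) : 0 < ∑ i, uu q r F i := by
  have hPu : GMq q r F *ᵥ uu q r F = fun _ => 1 := inv_mul_eq hP _
  have hne : uu q r F ≠ 0 := by
    intro h0
    rw [h0, Matrix.mulVec_zero] at hPu
    obtain ⟨a, ha⟩ := hr
    exact zero_ne_one (congrFun hPu ⟨a, ha⟩)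
  have h7 := hP.dotProduct_mulVec_pos hne
  rw [hPu] at h7
  have h8 : star (uu q r F) ⬝ᵥ (fun _ => (1 : ℝ)) = ∑ i, uu q r F i := by
    rw [star_trivial]
    exact Finset.sum_congr rfl fun i _ => mul_one _
  rwa [h8] at h7

/-- uniqueness of the affine weights -/
lemma unique (hr : r.Nonempty) (hP : (GMq q r F).PosDef) {j : ι} {l l' : r → ℝ} {c c' : ℝ}
    (h1 : ∑ i, l i = 1) (h1' : ∑ i, l' i = 1)
    (h2 : ∀ i : r, q i j - ∑ k : r, q i k * l k = c)
    (h2' : ∀ i : r, q i j - ∑ k : r, q i k * l' k = c') : l = l' ∧ c = c' := by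
  have hd : l - l' = 0 := by
    by_contra hne
    have h3 := hP.dotProduct_mulVec_pos hne
    have h4 : star (l - l') ⬝ᵥ (GMq q r F *ᵥ (l - l')) = 0 := by
      rw [star_trivial]
      have h5 : ∀ i : r, (GMq q r F *ᵥ (l - l')) i =
          ((∑ k : r, F k * (l - l') k) - (c' - c)) / 2 := by
        intro i
        rw [row]
        have h6 : ∑ k, (l - l') k = 0 := by
          simp only [Pi.sub_apply, Finset.sum_sub_distrib, h1, h1', sub_self]
        have h7 : ∑ k : r, q i k * (l - l') k = c' - c := by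
          simp only [Pi.sub_apply, mul_sub, Finset.sum_sub_distrib]
          have := h2 i
          have := h2' i
          linarith
        rw [h6, h7, mul_zero, zero_add]
      have h8 : (l - l') ⬝ᵥ (GMq q r F *ᵥ (l - l')) =
          ∑ i : r, (l - l') i * (((∑ k : r, F k * (l - l') k) - (c' - c)) / 2) :=
        Finset.sum_congr rfl fun i _ => by rw [h5 i]
      rw [h8, ← Finset.sum_mul]
      have h6 : ∑ k, (l - l') k = 0 := by
        simp only [Pi.sub_apply, Finset.sum_sub_distrib, h1, h1', sub_self]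
      rw [h6, zero_mul]
    rw [h4] at h3
    exact lt_irrefl _ h3
  have hl : l = l' := sub_eq_zero.1 hd
  refine ⟨hl, ?_⟩
  obtain ⟨a, ha⟩ := hr
  rw [← h2 ⟨a, ha⟩, ← h2' ⟨a, ha⟩, hl]

end base

section step

variable {ι : Type} {q : ι → ι → ℝ} {r : Finset ι} {F : ι → ℝ}

/-- the column of the new vertex -/
noncomputable def bb (q : ι → ι → ℝ) (r : Finset ι) (F : ι → ℝ) (j : ι) : r → ℝ :=
  fun i => gq q F i j

/-- the splitting of the index type -/
noncomputable def ee (r : Finset ι) (j : ι) (hj : j ∉ r) : r ⊕ Unit ≃ (insert j r : Finset ι) :=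
  Equiv.ofBijective
    (Sum.elim (fun i => ⟨i, mem_insert_of_mem i.2⟩) (fun _ => ⟨j, mem_insert_self j r⟩)) (by
      constructor
      · rintro (a | a) (b | b) h
        · simp only [Sum.elim_inl, Subtype.mk.injEq] at h
          rw [Subtype.ext h]
        · simp only [Sum.elim_inl, Sum.elim_inr, Subtype.mk.injEq] at h
          exact absurd (h ▸ a.2) hj
        · simp only [Sum.elim_inl, Sum.elim_inr, Subtype.mk.injEq] at h
          exact absurd (h ▸ b.2) hj
        · rfl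
      · rintro ⟨x, hx⟩
        rcases mem_insert.1 hx with h | h
        · exact ⟨Sum.inr (), by simp only [Sum.elim_inr]; exact Subtype.ext h.symm⟩
        · exact ⟨Sum.inl ⟨x, h⟩, rfl⟩)

lemma blocks (hq : ∀ i k, q i k = q k i) (hq0 : ∀ i, q i i = 0) (j : ι) (hj : j ∉ r) :
    (GMq q (insert j r) F).submatrix (ee r j hj) (ee r j hj) =
      Matrix.fromBlocks (GMq q r F) (Matrix.of fun i _ => bb q r F j i)
        (Matrix.of fun _ i => bb q r F j i) (Matrix.of fun _ _ => F j) := by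
  ext a b
  rcases a with a | a <;> rcases b with b | b
  · rfl
  · rfl
  · exact gq_symm hq F j b
  · show gq q F j j = F j
    unfold gq
    rw [hq0]
    ring

/-- the Schur complement -/
noncomputable def sg (q : ι → ι → ℝ) (r : Finset ι) (F : ι → ℝ) (j : ι) : ℝ :=
  F j - bb q r F j ⬝ᵥ ((GMq q r F)⁻¹ *ᵥ bb q r F j)

lemma det_eq (hq : ∀ i k, q i k = q k i) (hq0 : ∀ i, q i i = 0)
    (hP : (GMq q r F).PosDef) (j : ι) (hj : j ∉ r) :
    (GMq q (insert j r) F).det = (GMq q r F).det * sg q r F j := by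
  rw [← Matrix.det_submatrix_equiv_self (ee r j hj), blocks hq hq0 j hj]
  have hu : IsUnit (GMq q r F) := hP.isUnit
  let _ : Invertible (GMq q r F) := hu.invertible
  rw [Matrix.det_fromBlocks₁₁]
  congr 1
  rw [Matrix.det_unique]
  show F j - _ = _
  unfold sg
  congr 1
  rw [Matrix.invOf_eq_nonsing_inv, Matrix.mul_assoc]
  rfl

lemma kap_eq (hq : ∀ i k, q i k = q k i) (hq0 : ∀ i, q i i = 0)
    (hP : (GMq q r F).PosDef) (j : ι) (hj : j ∉ r) (hG : (GMq q (insert j r) F).PosDef) :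
    sg q r F j * ((GMq q (insert j r) F)⁻¹ *ᵥ (fun _ => 1)) ⟨j, mem_insert_self j r⟩ =
      1 - bb q r F j ⬝ᵥ uu q r F := by
  set y := (GMq q (insert j r) F)⁻¹ *ᵥ (fun _ => (1 : ℝ)) with hy
  have hGy : GMq q (insert j r) F *ᵥ y = fun _ => 1 := inv_mul_eq hG _
  set yj := y ⟨j, mem_insert_self j r⟩ with hyj
  let yr : r → ℝ := fun i => y ⟨i, mem_insert_of_mem i.2⟩
  have hsum : ∀ f : ↥(insert j r) → ℝ, ∑ k, f k =
      (∑ i : r, f ⟨i, mem_insert_of_mem i.2⟩) + f ⟨j, mem_insert_self j r⟩ := by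
    intro f
    rw [← Equiv.sum_comp (ee r j hj) f, Fintype.sum_sum_type]
    simp only [Finset.univ_unique, Finset.sum_singleton]
    rfl
  have h1 : GMq q r F *ᵥ yr + yj • bb q r F j = fun _ => 1 := by
    funext i
    have h2 := congrFun hGy ⟨i, mem_insert_of_mem i.2⟩
    have h3 : (GMq q (insert j r) F *ᵥ y) ⟨i, mem_insert_of_mem i.2⟩ =
        ∑ k : ↥(insert j r), gq q F i k * y k := rfl
    rw [h3, hsum] at h2
    have h4 : (GMq q r F *ᵥ yr) i = ∑ k : r, gq q F i k * yr k := rfl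
    rw [Pi.add_apply, h4, Pi.smul_apply, smul_eq_mul]
    show _ = (1 : ℝ)
    rw [← h2]
    show _ + yj * gq q F i j = _ + gq q F i j * yj
    rw [mul_comm yj]
  have h5 : bb q r F j ⬝ᵥ yr + F j * yj = 1 := by
    have h2 := congrFun hGy ⟨j, mem_insert_self j r⟩
    have h3 : (GMq q (insert j r) F *ᵥ y) ⟨j, mem_insert_self j r⟩ =
        ∑ k : ↥(insert j r), gq q F j k * y k := rfl
    rw [h3, hsum] at h2
    have h6 : gq q F j j = F j := by
      unfold gq
      rw [hq0]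
      ring
    rw [← h2]
    show (∑ i : r, gq q F i j * yr i) + F j * yj = (∑ i : r, gq q F j i * yr i) + gq q F j j * yj
    rw [h6]
    congr 1
    exact Finset.sum_congr rfl fun i _ => by rw [gq_symm hq F i j]
  have h7 : yr = uu q r F - yj • ((GMq q r F)⁻¹ *ᵥ bb q r F j) := by
    have h8 : GMq q r F *ᵥ yr = (fun _ => 1) - yj • bb q r F j := by
      rw [← h1]; simp
    calc yr = (GMq q r F)⁻¹ *ᵥ (GMq q r F *ᵥ yr) := (inv_mul_eq' hP yr).symm
      _ = _ := by
        rw [h8, Matrix.mulVec_sub, Matrix.mulVec_smul]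
        rfl
  rw [h7, dotProduct_sub, dotProduct_smul, smul_eq_mul] at h5
  unfold sg
  linarith

lemma posDef_sub {j : ι} (hG : (GMq q (insert j r) F).PosDef) : (GMq q r F).PosDef := by
  have h := hG.submatrix (e := fun i : r => (⟨i, mem_insert_of_mem i.2⟩ : (insert j r : Finset ι)))
    (fun a b hab => by
      simp only [Subtype.mk.injEq] at hab
      exact Subtype.ext hab)
  exact h

/-- the closed form of the ridge coefficient -/
lemma form (hr : r.Nonempty) (hq : ∀ i k, q i k = q k i) (hq0 : ∀ i, q i i = 0)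
    (j : ι) (hj : j ∉ r) (hG : (GMq q (insert j r) F).PosDef) :
    ∃ (l : r → ℝ) (c : ℝ), ∑ i, l i = 1 ∧ (∀ i : r, q i j - ∑ k : r, q i k * l k = c) ∧
      0 < ((∑ k : r, q k j * l k) + c) / 2 ∧
      0 < ((∑ k : r, q k j * l k) + c) / 2 -
        (∑ i, uu q r F i) * (((∑ k : r, F k * l k) - F j + c) / 2) ^ 2 ∧
      kr q r j F = Real.sqrt (GMq q r F).det * (∑ i, uu q r F i) *
        ((((∑ k : r, F k * l k) - F j + c) / 2) /
          Real.sqrt (((∑ k : r, q k j * l k) + c) / 2 -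
            (∑ i, uu q r F i) * (((∑ k : r, F k * l k) - F j + c) / 2) ^ 2)) := by
  have hP : (GMq q r F).PosDef := posDef_sub hG
  have hτ := tau_pos hr hP
  set τ := ∑ i, uu q r F i with hτdef
  have hdet : 0 < (GMq q r F).det := hP.det_pos
  have h1 := det_eq hq hq0 hP j hj
  have h2 : 0 < (GMq q (insert j r) F).det := hG.det_pos
  have hsg : 0 < sg q r F j := by
    rw [h1] at h2
    exact pos_of_mul_pos_right h2 hdet.le
  have hk := kap_eq hq hq0 hP j hj hG
  set N := 1 - bb q r F j ⬝ᵥ uu q r F with hN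
  set pb := (GMq q r F)⁻¹ *ᵥ bb q r F j with hpb
  have hPpb : GMq q r F *ᵥ pb = bb q r F j := inv_mul_eq hP _
  have hPu : GMq q r F *ᵥ uu q r F = fun _ => 1 := inv_mul_eq hP _
  -- symmetry
  have hsymm : ∀ x y : r → ℝ, x ⬝ᵥ (GMq q r F *ᵥ y) = (GMq q r F *ᵥ x) ⬝ᵥ y := by
    intro x y
    have ht : (GMq q r F)ᵀ = GMq q r F := by
      ext i k
      exact gq_symm hq F k i
    rw [Matrix.dotProduct_mulVec, ← Matrix.mulVec_transpose, ht]
  have hsb : ∑ i, pb i = bb q r F j ⬝ᵥ uu q r F := by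
    have h3 : pb ⬝ᵥ (GMq q r F *ᵥ uu q r F) = ∑ i, pb i := by
      rw [hPu]
      exact Finset.sum_congr rfl fun i _ => mul_one _
    rw [← h3, hsymm, hPpb]
  set μ := N / τ with hμ
  have hμτ : μ * τ = N := by rw [hμ]; field_simp
  let l : r → ℝ := pb + μ • uu q r F
  have hl : l = pb + μ • uu q r F := rfl
  have hl1 : ∑ i, l i = 1 := by
    simp only [hl, Pi.add_apply, Pi.smul_apply, smul_eq_mul, Finset.sum_add_distrib]
    rw [hsb, ← Finset.mul_sum, ← hτdef, hμτ, hN]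
    ring
  have hPl : GMq q r F *ᵥ l = fun i => bb q r F j i + μ := by
    rw [hl, Matrix.mulVec_add, Matrix.mulVec_smul, hPpb, hPu]
    funext i
    simp
  set A := ∑ k : r, F k * l k with hA
  have hrow : ∀ i : r, q i j - ∑ k : r, q i k * l k = 2 * μ - A + F j := by
    intro i
    have h4 := congrFun hPl i
    rw [row, hl1, ← hA] at h4
    have h5 : bb q r F j i = (F i + F j - q i j) / 2 := rfl
    rw [h5] at h4
    linarith
  refine ⟨l, 2 * μ - A + F j, hl1, hrow, ?_⟩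
  have hμ2 : (A - F j + (2 * μ - A + F j)) / 2 = μ := by ring
  rw [hμ2]
  -- the value of the Schur complement
  have hbl : bb q r F j ⬝ᵥ l = (A + F j - ∑ k : r, q k j * l k) / 2 := by
    have h6 : bb q r F j ⬝ᵥ l = ∑ k : r, (F k * l k + F j * l k - q k j * l k) / 2 := by
      refine Finset.sum_congr rfl fun k _ => ?_
      show (F k + F j - q k j) / 2 * l k = _
      ring
    rw [h6, ← Finset.sum_div, Finset.sum_sub_distrib, Finset.sum_add_distrib, ← Finset.mul_sum,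
      hl1, mul_one]
  have hbl2 : bb q r F j ⬝ᵥ l = bb q r F j ⬝ᵥ pb + μ * (1 - N) := by
    rw [hl, dotProduct_add, dotProduct_smul, smul_eq_mul, hN]
    ring
  have hsg2 : ((∑ k : r, q k j * l k) + (2 * μ - A + F j)) / 2 - τ * μ ^ 2 = sg q r F j := by
    have h7 : sg q r F j = F j - bb q r F j ⬝ᵥ pb := rfl
    have h8 : τ * μ ^ 2 = μ * N := by rw [← hμτ]; ring
    rw [h7, h8]
    linarith
  rw [hsg2]
  refine ⟨?_, hsg, ?_⟩
  · have : 0 ≤ τ * μ ^ 2 := mul_nonneg hτ.le (sq_nonneg _)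
    linarith
  · have h5 : ((GMq q (insert j r) F)⁻¹ *ᵥ (fun _ => (1 : ℝ))) ⟨j, mem_insert_self j r⟩ =
        τ * μ / sg q r F j := by
      rw [eq_div_iff hsg.ne', mul_comm, hk, mul_comm τ, hμτ]
    unfold kr kapq
    rw [h1, Real.sqrt_mul hdet.le, h5]
    have h6 : Real.sqrt (sg q r F j) ≠ 0 := (Real.sqrt_pos.2 hsg).ne'
    have h7 : sg q r F j = Real.sqrt (sg q r F j) * Real.sqrt (sg q r F j) :=
      (Real.mul_self_sqrt hsg.le).symm
    generalize Real.sqrt (sg q r F j) = w at h6 h7 ⊢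
    rw [h7]
    field_simp

end step

section scalar

lemma phi_nonneg {τ x y : ℝ} (hτ : 0 < τ) (hx0 : 0 ≤ x) (hxy : x < y) (hy : 0 < 1 - τ * y ^ 2) :
    x / Real.sqrt (1 - τ * x ^ 2) < y / Real.sqrt (1 - τ * y ^ 2) := by
  have h1 : x ^ 2 ≤ y ^ 2 := by nlinarith
  have h2 : 1 - τ * y ^ 2 ≤ 1 - τ * x ^ 2 := by nlinarith
  have h3 : Real.sqrt (1 - τ * y ^ 2) ≤ Real.sqrt (1 - τ * x ^ 2) := Real.sqrt_le_sqrt h2
  have h4 : 0 < Real.sqrt (1 - τ * y ^ 2) := Real.sqrt_pos.2 hy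
  calc x / Real.sqrt (1 - τ * x ^ 2) ≤ x / Real.sqrt (1 - τ * y ^ 2) :=
        div_le_div_of_nonneg_left hx0 h4 h3
    _ < y / Real.sqrt (1 - τ * y ^ 2) := div_lt_div_of_pos_right hxy h4

lemma phi_mono {τ x y : ℝ} (hτ : 0 < τ) (hxy : x < y) (hx : 0 < 1 - τ * x ^ 2)
    (hy : 0 < 1 - τ * y ^ 2) :
    x / Real.sqrt (1 - τ * x ^ 2) < y / Real.sqrt (1 - τ * y ^ 2) := by
  rcases le_or_gt 0 x with h | h
  · exact phi_nonneg hτ h hxy hy
  · rcases le_or_gt 0 y with h' | h'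
    · have h1 : x / Real.sqrt (1 - τ * x ^ 2) < 0 := div_neg_of_neg_of_pos h (Real.sqrt_pos.2 hx)
      have h2 : 0 ≤ y / Real.sqrt (1 - τ * y ^ 2) := div_nonneg h' (Real.sqrt_nonneg _)
      linarith
    · have h3 := phi_nonneg (x := -y) (y := -x) hτ (by linarith) (by linarith)
        (by rw [neg_sq]; exact hx)
      rw [neg_sq, neg_sq, neg_div, neg_div] at h3
      linarith

/-- the general comparison -/
lemma cmp {τ h k a b : ℝ} (hτ : 0 < τ) (hh : 0 < h) (hk : 0 < k) (ha : 0 < h - τ * a ^ 2)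
    (hb : 0 < k - τ * b ^ 2) (hab : a / Real.sqrt h < b / Real.sqrt k) :
    a / Real.sqrt (h - τ * a ^ 2) < b / Real.sqrt (k - τ * b ^ 2) := by
  have key : ∀ h a : ℝ, 0 < h → 0 < h - τ * a ^ 2 →
      0 < 1 - τ * (a / Real.sqrt h) ^ 2 ∧ a / Real.sqrt (h - τ * a ^ 2) =
        (a / Real.sqrt h) / Real.sqrt (1 - τ * (a / Real.sqrt h) ^ 2) := by
    intro h a hh ha
    have h1 : 0 < Real.sqrt h := Real.sqrt_pos.2 hh
    have h2 : (a / Real.sqrt h) ^ 2 = a ^ 2 / h := by rw [div_pow, Real.sq_sqrt hh.le]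
    have h3 : h - τ * a ^ 2 = h * (1 - τ * (a / Real.sqrt h) ^ 2) := by
      rw [h2]; field_simp
    have h4 : 0 < 1 - τ * (a / Real.sqrt h) ^ 2 := by
      rw [h3] at ha
      exact pos_of_mul_pos_right ha hh.le
    refine ⟨h4, ?_⟩
    rw [h3, Real.sqrt_mul hh.le, div_div]
  obtain ⟨h1, h2⟩ := key h a hh ha
  obtain ⟨h3, h4⟩ := key k b hk hb
  rw [h2, h4]
  exact phi_mono hτ hab h1 h3

lemma cmp_neg {τ h k a b : ℝ} (hτ : 0 < τ) (hh : 0 < h) (hk : 0 < k) (ha : 0 < h - τ * a ^ 2)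
    (hb : 0 < k - τ * b ^ 2) (hab : 0 < a / Real.sqrt h + b / Real.sqrt k) :
    0 < a / Real.sqrt (h - τ * a ^ 2) + b / Real.sqrt (k - τ * b ^ 2) := by
  have h1 := cmp (a := -b) (b := a) hτ hk hh (by rw [neg_sq]; exact hb) ha
    (by rw [neg_div]; linarith)
  rw [neg_sq, neg_div] at h1
  linarith

/-- the sign of the sum -/
lemma sign_pos {τ h k a b : ℝ} (hτ : 0 < τ) (hh : 0 < h) (hk : 0 < k) (ha : 0 < h - τ * a ^ 2)
    (hb : 0 < k - τ * b ^ 2) : 0 < a / Real.sqrt (h - τ * a ^ 2) + b / Real.sqrt (k - τ * b ^ 2) ↔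
      0 < a / Real.sqrt h + b / Real.sqrt k := by
  constructor
  · intro h1
    by_contra h2
    push Not at h2
    rcases h2.lt_or_eq with h3 | h3
    · have h4 := cmp_neg (a := -a) (b := -b) hτ hh hk (by rw [neg_sq]; exact ha)
        (by rw [neg_sq]; exact hb) (by rw [neg_div, neg_div]; linarith)
      rw [neg_sq, neg_sq, neg_div, neg_div] at h4
      linarith
    · -- equality: both terms cancel
      have h5 : a / Real.sqrt h = (-b) / Real.sqrt k := by rw [neg_div]; linarith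
      rcases lt_trichotomy (a / Real.sqrt (h - τ * a ^ 2)) ((-b) / Real.sqrt (k - τ * (-b) ^ 2))
        with h6 | h6 | h6
      · rw [neg_sq, neg_div] at h6; linarith
      · rw [neg_sq, neg_div] at h6; linarith
      · exfalso
        have key : ∀ h a : ℝ, 0 < h → 0 < h - τ * a ^ 2 →
            a / Real.sqrt (h - τ * a ^ 2) =
              (a / Real.sqrt h) / Real.sqrt (1 - τ * (a / Real.sqrt h) ^ 2) := by
          intro h a hh ha
          have h2 : (a / Real.sqrt h) ^ 2 = a ^ 2 / h := by rw [div_pow, Real.sq_sqrt hh.le]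
          have h3 : h - τ * a ^ 2 = h * (1 - τ * (a / Real.sqrt h) ^ 2) := by
            rw [h2]; field_simp
          rw [h3, Real.sqrt_mul hh.le, div_div]
        rw [key h a hh ha, key k (-b) hk (by rw [neg_sq]; exact hb), h5] at h6
        exact lt_irrefl _ h6
  · exact cmp_neg hτ hh hk ha hb

lemma sign_nonneg {τ h k a b : ℝ} (hτ : 0 < τ) (hh : 0 < h) (hk : 0 < k) (ha : 0 < h - τ * a ^ 2)
    (hb : 0 < k - τ * b ^ 2) : 0 ≤ a / Real.sqrt (h - τ * a ^ 2) + b / Real.sqrt (k - τ * b ^ 2) ↔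
      0 ≤ a / Real.sqrt h + b / Real.sqrt k := by
  have h1 := sign_pos (a := -a) (b := -b) hτ hh hk (by rw [neg_sq]; exact ha)
    (by rw [neg_sq]; exact hb)
  rw [neg_sq, neg_sq, neg_div, neg_div, neg_div, neg_div] at h1
  constructor
  · intro h2
    by_contra h3
    push Not at h3
    have := h1.2 (by linarith)
    linarith
  · intro h2
    by_contra h3
    push Not at h3
    have := h1.1 (by linarith)
    linarith

end scalar

lemma seg {ι : Type} {q : ι → ι → ℝ} {s : Finset ι} {F F' : ι → ℝ} (h : (GMq q s F).PosDef)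
    (h' : (GMq q s F').PosDef) {t : ℝ} (ht0 : 0 ≤ t) (ht1 : t < 1) :
    (GMq q s (fun i => (1 - t) * F i + t * F' i)).PosDef := by
  have h1 : GMq q s (fun i => (1 - t) * F i + t * F' i) =
      (1 - t) • GMq q s F + t • GMq q s F' := by
    ext i k
    show ((1 - t) * F i + t * F' i + ((1 - t) * F k + t * F' k) - q i k) / 2 =
      (1 - t) * ((F i + F k - q i k) / 2) + t * ((F' i + F' k - q i k) / 2)
    ring
  rw [h1]
  exact (h.smul (by linarith : (0 : ℝ) < 1 - t)).add_posSemidef (h'.posSemidef.smul ht0)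

theorem t : TaskN2 := by
  intro ι q r j j' F F' hr hq hq0 hj hj' hG hG' hH hH' h0 h0' t ht0 ht1
  have hGt := seg hG hH ht0 ht1
  have hGt' := seg hG' hH' ht0 ht1
  set Ft : ι → ℝ := fun i => (1 - t) * F i + t * F' i with hFt
  -- weights for `j`
  obtain ⟨l, c, hl1, hl2, hh, hs, hk⟩ := form hr hq hq0 j hj hG
  obtain ⟨l1, c1, hl11, hl12, -, hs1, hk1⟩ := form hr hq hq0 j hj hH
  obtain ⟨l2, c2, hl21, hl22, -, hs2, hk2⟩ := form hr hq hq0 j hj hGt
  obtain ⟨rfl, rfl⟩ := unique hr (posDef_sub hG) hl1 hl11 hl2 hl12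
  obtain ⟨rfl, rfl⟩ := unique hr (posDef_sub hG) hl1 hl21 hl2 hl22
  -- weights for `j'`
  obtain ⟨m, d, hm1, hm2, hh', hs', hk'⟩ := form hr hq hq0 j' hj' hG'
  obtain ⟨m1, d1, hm11, hm12, -, hs1', hk1'⟩ := form hr hq hq0 j' hj' hH'
  obtain ⟨m2, d2, hm21, hm22, -, hs2', hk2'⟩ := form hr hq hq0 j' hj' hGt'
  obtain ⟨rfl, rfl⟩ := unique hr (posDef_sub hG) hm1 hm11 hm2 hm12
  obtain ⟨rfl, rfl⟩ := unique hr (posDef_sub hG) hm1 hm21 hm2 hm22
  -- affine dependence
  have hμ : ∀ (w : r → ℝ) (e : ℝ) (i : ι), ((∑ k : r, Ft k * w k) - Ft i + e) / 2 =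
      (1 - t) * (((∑ k : r, F k * w k) - F i + e) / 2) +
        t * (((∑ k : r, F' k * w k) - F' i + e) / 2) := by
    intro w e i
    have h1 : ∑ k : r, Ft k * w k = (1 - t) * (∑ k : r, F k * w k) + t * ∑ k : r, F' k * w k := by
      rw [Finset.mul_sum, Finset.mul_sum, ← Finset.sum_add_distrib]
      refine Finset.sum_congr rfl fun k _ => ?_
      rw [hFt]
      ring
    rw [h1, hFt]
    ring
  have hD : ∀ {E : ι → ℝ}, (GMq q r E).PosDef →
      0 < Real.sqrt (GMq q r E).det * (∑ i, uu q r E i) := fun hE =>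
    mul_pos (Real.sqrt_pos.2 hE.det_pos) (tau_pos hr hE)
  have hP := posDef_sub hG
  have hP1 := posDef_sub hH
  have hP2 := posDef_sub hGt
  rw [hk, hk', ← mul_add] at h0
  rw [hk1, hk1', ← mul_add] at h0'
  rw [hk2, hk2', ← mul_add, hk, hk', ← mul_add]
  rw [mul_nonneg_iff_of_pos_left (hD hP), sign_nonneg (tau_pos hr hP) hh hh' hs hs'] at h0
  rw [mul_nonneg_iff_of_pos_left (hD hP1), sign_nonneg (tau_pos hr hP1) hh hh' hs1 hs1'] at h0'
  rw [mul_nonneg_iff_of_pos_left (hD hP2), sign_nonneg (tau_pos hr hP2) hh hh' hs2 hs2',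
    mul_pos_iff_of_pos_left (hD hP2), sign_pos (tau_pos hr hP2) hh hh' hs2 hs2',
    mul_pos_iff_of_pos_left (hD hP), sign_pos (tau_pos hr hP) hh hh' hs hs', hμ, hμ]
  set x := ((∑ k : r, F k * l k) - F j + c) / 2
  set x' := ((∑ k : r, F' k * l k) - F' j + c) / 2
  set y := ((∑ k : r, F k * m k) - F j' + d) / 2
  set y' := ((∑ k : r, F' k * m k) - F' j' + d) / 2
  have e1 : ∀ z z' w : ℝ, ((1 - t) * z + t * z') / w = (1 - t) * (z / w) + t * (z' / w) := by
    intro z z' w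
    ring
  rw [e1, e1]
  refine ⟨?_, fun h1 => ?_⟩
  · have h2 := mul_nonneg (by linarith : 0 ≤ 1 - t) h0
    have h3 := mul_nonneg ht0 h0'
    linarith
  · have h2 := mul_pos (by linarith : 0 < 1 - t) h1
    have h3 := mul_nonneg ht0 h0'
    linarith

end Pool.Agent.H574R3.ESN2
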